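import Pool.Agent.Lib.MP_0e3b4a_gt.Iface

/-! # BILI : the first and the second variation as continuous (bi)linear maps of the controls -/

set_option autoImplicit false

namespace Pool.Agent.CutLoci.H78

open MeasureTheory Set Filter Topology

/-- Lebesgue measure on `(0, 1]` -/
noncomputable abbrev mu : Measure ℝ := (volume : Measure ℝ).restrict (Ioc (0 : ℝ) 1)

instance : IsProbabilityMeasure mu := by
  constructor
  simp [mu]

variable {r : ℕ}

theorem ctl_integrable (x : Ctl r) : Integrable (x : ℝ → EE r) mu :=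
  (Lp.memLp x).integrable (by norm_num)

theorem ctl_integrableOn (x : Ctl r) : IntegrableOn (x : ℝ → EE r) (Ioc 0 1) :=
  ctl_integrable x

theorem integral_norm_le (x : Ctl r) : ∫ s, ‖x s‖ ∂mu ≤ ‖x‖ := by
  have h1 : ∫ s, ‖x s‖ ∂mu = (eLpNorm (x : ℝ → EE r) 1 mu).toReal := by
    rw [integral_norm_eq_lintegral_enorm (ctl_integrable x).aestronglyMeasurable,
      eLpNorm_one_eq_lintegral_enorm]
  rw [h1, Lp.norm_def]
  refine ENNReal.toReal_mono (Lp.eLpNorm_ne_top x) ?_
  exact eLpNorm_le_eLpNorm_of_exponent_le (by norm_num) (Lp.aestronglyMeasurable x)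

section general

variable {F : Type} [NormedAddCommGroup F] [NormedSpace ℝ F]

/-- integrability of `K(s) x(s)` -/
theorem kernel_integrable (K : ℝ → (EE r →L[ℝ] F)) (M : ℝ) (hK : AEStronglyMeasurable K mu)
    (hM : ∀ᵐ s ∂mu, ‖K s‖ ≤ M) (x : Ctl r) : Integrable (fun s => K s (x s)) mu := by
  have h1 : AEStronglyMeasurable (fun s => K s (x s)) mu :=
    (ContinuousLinearMap.apply ℝ F).flip.aestronglyMeasurable_comp₂ hK
      (Lp.aestronglyMeasurable x)
  refine Integrable.mono' ((ctl_integrable x).norm.const_mul M) h1 ?_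
  filter_upwards [hM] with s hs
  exact ((K s).le_opNorm _).trans (mul_le_mul_of_nonneg_right hs (norm_nonneg _))

theorem kernel_norm (K : ℝ → (EE r →L[ℝ] F)) (M : ℝ) (hM : ∀ᵐ s ∂mu, ‖K s‖ ≤ M) (hM0 : 0 ≤ M)
    (x : Ctl r) : ‖∫ s, K s (x s) ∂mu‖ ≤ M * ‖x‖ := by
  calc ‖∫ s, K s (x s) ∂mu‖ ≤ ∫ s, M * ‖x s‖ ∂mu := by
        refine norm_integral_le_of_norm_le ((ctl_integrable x).norm.const_mul M) ?_
        filter_upwards [hM] with s hs
        exact ((K s).le_opNorm _).trans (mul_le_mul_of_nonneg_right hs (norm_nonneg _))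
    _ = M * ∫ s, ‖x s‖ ∂mu := integral_const_mul _ _
    _ ≤ M * ‖x‖ := mul_le_mul_of_nonneg_left (integral_norm_le x) hM0

theorem kernel_add (K : ℝ → (EE r →L[ℝ] F)) (M : ℝ) (hK : AEStronglyMeasurable K mu)
    (hM : ∀ᵐ s ∂mu, ‖K s‖ ≤ M) (x y : Ctl r) :
    ∫ s, K s ((x + y : Ctl r) s) ∂mu = ∫ s, K s (x s) ∂mu + ∫ s, K s (y s) ∂mu := by
  rw [← integral_add (kernel_integrable K M hK hM x) (kernel_integrable K M hK hM y)]
  refine integral_congr_ae ?_
  filter_upwards [Lp.coeFn_add x y] with s hs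
  rw [hs, Pi.add_apply, map_add]

theorem kernel_smul (K : ℝ → (EE r →L[ℝ] F)) (c : ℝ) (x : Ctl r) :
    ∫ s, K s ((c • x : Ctl r) s) ∂mu = c • ∫ s, K s (x s) ∂mu := by
  rw [← integral_smul]
  refine integral_congr_ae ?_
  filter_upwards [Lp.coeFn_smul c x] with s hs
  rw [hs, Pi.smul_apply, map_smul]

end general

section carnot

variable {g : Type} [NormedAddCommGroup g] [NormedSpace ℝ g] [FiniteDimensional ℝ g]
  (C : Carnot g r) (u : ℝ → EE r)

/-- the kernel of the first variation up to time `t` -/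
noncomputable def kW (t : ℝ) (s : ℝ) : EE r →L[ℝ] g :=
  (Ioc 0 t).indicator (fun s => (C.Ad u s).comp C.X) s

theorem W_eq {t : ℝ} (ht : t ∈ Icc (0 : ℝ) 1) (x : ℝ → EE r) :
    C.W u x t = ∫ s, kW C u t s (x s) ∂mu := by
  have h1 : ∀ s, kW C u t s (x s) =
      (Ioc 0 t).indicator (fun s => C.Ad u s (C.X (x s))) s := by
    intro s
    by_cases hs : s ∈ Ioc 0 t
    · rw [kW, indicator_of_mem hs, indicator_of_mem hs, ContinuousLinearMap.comp_apply]
    · rw [kW, indicator_of_notMem hs, indicator_of_notMem hs, zero_apply]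
  simp only [h1]
  rw [integral_indicator measurableSet_Ioc, Measure.restrict_restrict measurableSet_Ioc,
    inter_eq_self_of_subset_left (Ioc_subset_Ioc_right ht.2), Carnot.W,
    intervalIntegral.integral_of_le ht.1]

theorem kW_meas (hA : ContinuousOn (C.Ad u) (Icc 0 1)) (t : ℝ) :
    AEStronglyMeasurable (kW C u t) mu := by
  have h1 : ContinuousOn (fun s => (C.Ad u s).comp C.X) (Ioc 0 1) :=
    (hA.mono Ioc_subset_Icc_self).clm_comp continuousOn_const
  exact (h1.aestronglyMeasurable measurableSet_Ioc).indicator measurableSet_Ioc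

theorem kW_bound {M : ℝ} (hM : ∀ t ∈ Icc (0 : ℝ) 1, ‖C.Ad u t‖ ≤ M) (t s : ℝ)
    (hs : s ∈ Ioc (0 : ℝ) 1) : ‖kW C u t s‖ ≤ M * ‖C.X‖ := by
  have hM0 : 0 ≤ M := (norm_nonneg _).trans (hM 0 ⟨le_rfl, zero_le_one⟩)
  by_cases h : s ∈ Ioc 0 t
  · rw [kW, indicator_of_mem h]
    refine (ContinuousLinearMap.opNorm_comp_le _ _).trans ?_
    exact mul_le_mul_of_nonneg_right (hM s ⟨hs.1.le, hs.2⟩) (norm_nonneg _)
  · rw [kW, indicator_of_notMem h, norm_zero]
    exact mul_nonneg hM0 (norm_nonneg _)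

/-- the kernel of the second variation -/
noncomputable def kQ (x : ℝ → EE r) (t : ℝ) : EE r →L[ℝ] g :=
  (C.br (C.W u x t)).comp ((C.Ad u t).comp C.X)

end carnot

/-- BILI -/
theorem bili (g : Type) [NormedAddCommGroup g] [NormedSpace ℝ g] [FiniteDimensional ℝ g] (r : ℕ)
    (hS : StrucStatement g r) : BiliStatement g r := by
  intro C u
  have hA : ContinuousOn (C.Ad u) (Icc 0 1) := (hS C u (ctl_integrableOn u)).2.1
  obtain ⟨M, hM⟩ := isCompact_Icc.exists_bound_of_continuousOn hA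
  have hM0 : 0 ≤ M := (norm_nonneg _).trans (hM 0 ⟨le_rfl, zero_le_one⟩)
  have hXM : 0 ≤ M * ‖C.X‖ := mul_nonneg hM0 (norm_nonneg _)
  have hb : 0 ≤ ‖C.br‖ := norm_nonneg C.br
  have haemem : ∀ᵐ s ∂mu, s ∈ Ioc (0 : ℝ) 1 := ae_restrict_mem measurableSet_Ioc
  have hkW : ∀ t, ∀ᵐ s ∂mu, ‖kW C u t s‖ ≤ M * ‖C.X‖ := by
    intro t
    filter_upwards [haemem] with s hs
    exact kW_bound C u hM t s hs
  -- first variation
  have hWadd : ∀ t ∈ Icc (0 : ℝ) 1, ∀ x y : Ctl r,
      C.W u (x + y : Ctl r) t = C.W u x t + C.W u y t := by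
    intro t ht x y
    rw [W_eq C u ht, W_eq C u ht, W_eq C u ht]
    exact kernel_add _ _ (kW_meas C u hA t) (hkW t) x y
  have hWsmul : ∀ t ∈ Icc (0 : ℝ) 1, ∀ (c : ℝ) (x : Ctl r),
      C.W u (c • x : Ctl r) t = c • C.W u x t := by
    intro t ht c x
    rw [W_eq C u ht, W_eq C u ht]
    exact kernel_smul _ c x
  have hWnorm : ∀ t ∈ Icc (0 : ℝ) 1, ∀ x : Ctl r, ‖C.W u x t‖ ≤ M * ‖C.X‖ * ‖x‖ := by
    intro t ht x
    rw [W_eq C u ht]
    exact kernel_norm _ _ (hkW t) hXM x
  have hWcont : ∀ x : Ctl r, ContinuousOn (C.W u x) (Icc 0 1) := by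
    intro x
    have h1 : IntegrableOn (fun s => C.Ad u s (C.X (x s))) (Ioc 0 1) := by
      have h2 := kernel_integrable (kW C u 1) _ (kW_meas C u hA 1) (hkW 1) x
      refine (integrable_congr ?_).1 h2
      filter_upwards [haemem] with s hs
      rw [kW, indicator_of_mem hs, ContinuousLinearMap.comp_apply]
    have h3 : IntegrableOn (fun s => C.Ad u s (C.X (x s))) (uIcc 0 1) := by
      rw [uIcc_of_le zero_le_one]
      exact (integrableOn_Icc_iff_integrableOn_Ioc (by simp)).2 h1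
    have h4 := intervalIntegral.continuousOn_primitive_interval h3
    rw [uIcc_of_le zero_le_one] at h4
    exact h4
  -- second variation
  have hkQc : ∀ x : Ctl r, ContinuousOn (kQ C u x) (Icc 0 1) := by
    intro x
    exact (C.br.continuous.comp_continuousOn (hWcont x)).clm_comp
      (hA.clm_comp continuousOn_const)
  have hkQm : ∀ x : Ctl r, AEStronglyMeasurable (kQ C u x) mu := fun x =>
    ((hkQc x).mono Ioc_subset_Icc_self).aestronglyMeasurable measurableSet_Ioc
  have hkQn : ∀ x : Ctl r, ∀ᵐ t ∂mu,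
      ‖kQ C u x t‖ ≤ ‖C.br‖ * (M * ‖C.X‖) * (M * ‖C.X‖) * ‖x‖ := by
    intro x
    filter_upwards [haemem] with t ht
    have ht' : t ∈ Icc (0 : ℝ) 1 := ⟨ht.1.le, ht.2⟩
    calc ‖kQ C u x t‖ ≤ ‖C.br (C.W u x t)‖ * ‖(C.Ad u t).comp C.X‖ :=
          ContinuousLinearMap.opNorm_comp_le _ _
      _ ≤ (‖C.br‖ * (M * ‖C.X‖ * ‖x‖)) * (M * ‖C.X‖) := by
          refine mul_le_mul ?_ ?_ (norm_nonneg _) ?_
          · exact (C.br.le_opNorm _).trans
              (mul_le_mul_of_nonneg_left (hWnorm t ht' x) hb)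
          · exact (ContinuousLinearMap.opNorm_comp_le _ _).trans
              (mul_le_mul_of_nonneg_right (hM t ht') (norm_nonneg _))
          · exact mul_nonneg hb (mul_nonneg hXM (norm_nonneg _))
      _ = _ := by ring
  have hQ : ∀ x y : ℝ → EE r, C.Q u x y = ∫ t, kQ C u x t (y t) ∂mu := by
    intro x y
    rw [Carnot.Q, intervalIntegral.integral_of_le zero_le_one]
    rfl
  have hint : ∀ x y : Ctl r, Integrable (fun t => kQ C u x t (y t)) mu := fun x y =>
    kernel_integrable _ _ (hkQm x) (hkQn x) y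
  refine ⟨⟨fun t => if ht : t ∈ Icc (0 : ℝ) 1 then LinearMap.mkContinuous
      { toFun := fun x : Ctl r => C.W u x t
        map_add' := fun x y => hWadd t ht x y
        map_smul' := fun c x => hWsmul t ht c x } (M * ‖C.X‖) (fun x => hWnorm t ht x) else 0,
      fun t ht x => ?_⟩, ⟨?_, hWcont, fun x y => ?_⟩⟩
  · simp only [dif_pos ht]
    rfl
  · let f : Ctl r →ₗ[ℝ] Ctl r →ₗ[ℝ] g := LinearMap.mk₂ ℝ (fun x y => C.Q u x y)
      (by
        intro x x' y
        rw [hQ, hQ, hQ, ← integral_add (hint x y) (hint x' y)]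
        refine integral_congr_ae ?_
        filter_upwards [haemem] with t ht
        have ht' : t ∈ Icc (0 : ℝ) 1 := ⟨ht.1.le, ht.2⟩
        simp only [kQ, ContinuousLinearMap.comp_apply]
        rw [hWadd t ht' x x', map_add, add_apply])
      (by
        intro c x y
        rw [hQ, hQ, ← integral_smul]
        refine integral_congr_ae ?_
        filter_upwards [haemem] with t ht
        have ht' : t ∈ Icc (0 : ℝ) 1 := ⟨ht.1.le, ht.2⟩
        simp only [kQ, ContinuousLinearMap.comp_apply]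
        rw [hWsmul t ht' c x, map_smul, smul_apply])
      (by
        intro x y y'
        rw [hQ, hQ, hQ]
        exact kernel_add _ _ (hkQm x) (hkQn x) y y')
      (by
        intro c x y
        rw [hQ, hQ]
        exact kernel_smul _ c y)
    refine ⟨f.mkContinuous₂ (‖C.br‖ * (M * ‖C.X‖) * (M * ‖C.X‖)) ?_, fun x y => ?_⟩
    · intro x y
      change ‖C.Q u x y‖ ≤ _
      rw [hQ]
      refine kernel_norm _ _ (hkQn x) ?_ y
      exact mul_nonneg (mul_nonneg (mul_nonneg hb hXM) hXM) (norm_nonneg _)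
    · rfl
  · exact hint x y

end Pool.Agent.CutLoci.H78
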