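import Pool.Agent.Lib.MP_0e3b4a_gt.Iface2
import Pool.Agent.Lib.MP_0e3b4a_gt.H78.Bili

/-! # SPEE : energy minimisers have constant speed -/

set_option autoImplicit false

namespace Pool.Agent.CutLoci.H78

open MeasureTheory Set Filter Topology

variable {r : ℕ}

theorem norm_sq_eq (u : Ctl r) : ∫ t, ‖u t‖ ^ 2 ∂mu = ‖u‖ ^ 2 := by
  rw [← real_inner_self_eq_norm_sq, L2.inner_def]
  refine integral_congr_ae (Eventually.of_forall fun t => ?_)
  exact (real_inner_self_eq_norm_sq (u t)).symm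

theorem sq_integrable (u : Ctl r) : Integrable (fun t => ‖u t‖ ^ 2) mu := by
  have h := L2.integrable_inner (𝕜 := ℝ) u u
  refine (integrable_congr (Eventually.of_forall fun t => ?_)).1 h
  exact real_inner_self_eq_norm_sq (u t)

theorem norm_le_of_bound (w : Ctl r) (L : ℝ) (hL : 0 ≤ L) (h : ∀ᵐ t ∂mu, ‖w t‖ ≤ L) :
    ‖w‖ ≤ L := by
  have h1 := Lp.norm_le_of_ae_bound (f := w) hL h
  have h2 : (measureUnivNNReal mu : NNReal) = 1 := by
    simp [measureUnivNNReal, measure_univ]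
  rw [h2] at h1
  simpa using h1

/-- SPEE -/
theorem spee (g : Type) [NormedAddCommGroup g] [NormedSpace ℝ g] [FiniteDimensional ℝ g] (r : ℕ)
    (hR : RepaStatement g r) : SpeeStatement g r := by
  intro C u hu
  obtain ⟨w, hw, hwe⟩ := hR C u (ctl_integrableOn u)
  set L := ∫ s in (0 : ℝ)..1, ‖u s‖ with hLdef
  have hL : L = ∫ s, ‖u s‖ ∂mu := by
    rw [hLdef, intervalIntegral.integral_of_le zero_le_one]
  have hL0 : 0 ≤ L := by
    rw [hL]
    exact integral_nonneg fun _ => norm_nonneg _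
  have h1 : ‖u‖ ≤ L := by
    refine (hu w ?_).trans (norm_le_of_bound w L hL0 hw)
    rw [Carnot.End, Carnot.End, hwe]
  have h2 : L ≤ ‖u‖ := by
    rw [hL]
    exact integral_norm_le u
  have h3 : L = ‖u‖ := le_antisymm h2 h1
  have h4 : ∫ t, (‖u t‖ - L) ^ 2 ∂mu = 0 := by
    have h5 : ∀ t, (‖u t‖ - L) ^ 2 = ‖u t‖ ^ 2 - 2 * L * ‖u t‖ + L ^ 2 := fun t => by ring
    simp only [h5]
    have i1 : Integrable (fun t => ‖u t‖ ^ 2) mu := sq_integrable u
    have i2 : Integrable (fun t => 2 * L * ‖u t‖) mu := (ctl_integrable u).norm.const_mul _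
    have i3 : Integrable (fun t => ‖u t‖ ^ 2 - 2 * L * ‖u t‖) mu := i1.sub i2
    rw [integral_add i3 (integrable_const _), integral_sub i1 i2,
      norm_sq_eq, integral_const_mul, ← hL, ← h3]
    simp
    ring
  have h6 : Integrable (fun t => (‖u t‖ - L) ^ 2) mu := by
    have h5 : ∀ t, (‖u t‖ - L) ^ 2 = ‖u t‖ ^ 2 - 2 * L * ‖u t‖ + L ^ 2 := fun t => by ring
    simp only [h5]
    exact ((sq_integrable u).sub ((ctl_integrable u).norm.const_mul _)).add (integrable_const _)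
  have h7 := (integral_eq_zero_iff_of_nonneg (fun t => sq_nonneg _) h6).1 h4
  filter_upwards [h7] with t ht
  have h8 : (‖u t‖ - L) ^ 2 = 0 := ht
  rw [← h3]
  exact sub_eq_zero.1 (pow_eq_zero_iff (two_ne_zero) |>.1 h8)

end Pool.Agent.CutLoci.H78
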